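import Pool.Agent.Results.MP_23e236_ag.UniformPinching
import Pool.Agent.H575R2.Farkas

set_option autoImplicit false

/-!
# The closed cone of curves of `M̄_{0,n}` up to an absolute constant

The marks are `0, …, p-1` (the type `Fin p`) and `∞`, so `n = p + 1`.  The boundary divisors of
`M̄_{0,n}` are the `δ_S`, `S` a set of marks different from `∞` with `2 ≤ |S| < p`; they span `N^1`,
so a class in `N_1` is given by its intersection numbers with them.  From the file
`Pool.Agent.Results.MP_23e236_ag.UniformPinching`: `IsStratum B` (the sets of marks behind the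
points of a component of a stable curve, hence a factor `M̄_{0,q+1}` of a stratum), `IsCurve m d`
(the numbers of a curve in this factor that meets its interior, with Keel's relations), `degree`
(the degree of a divisor on such a curve), `fdegree` (the degree on an F-curve), `logCanonical`
(the ample divisor `K + Δ`, of degree one on all the F-curves) and `kappa n = min (3 √n) 51`.

`Mori p` is the closed cone spanned by the classes of all the curves in all the factors of the
strata.  It contains the closed cone of curves of `M̄_{0,n}`, since every irreducible curve is the sum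
of its projections to the factors of the stratum that it meets generically.  `P p` is the convex
hull of the classes of the F-curves.

Theorem.  All the F-curves are in `Mori p`, and they have degree one on `K + Δ`.  Every class `x` of
`Mori p` with degree one on `K + Δ` has the form `(1 + κ) y - κ z` with `y` and `z` in the convex
hull of the F-curves, `κ = min (3 √n) 51`.  So, on the hyperplane of degree one,

  `P ⊆ (cone of curves) ⊆ (1 + κ) P - κ P = P + κ (P - P)`,

and the constant `κ ≤ 51` does not depend on `n`: every curve `C` becomes an effective sum of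
F-curves after adding `51 (K + Δ) · C` times a convex combination of F-curves.

Proof.  This is the dual form, by the lemma of Farkas, of the approximate F-conjecture of the file
`UniformPinching`: a divisor with degrees in `[a, b]` on the F-curves has degree at least
`(a - κ (b - a)) (K + Δ) · C` on `C`.
-/

namespace Pool.Agent.Results.MP_159100_ag.UniformFCone

open Finset
open Pool.Agent.Results.MP_23e236_ag.UniformPinching

variable {p q : ℕ}

/-- The index set of the boundary divisors. -/
abbrev Bd (p : ℕ) : Type := {S : Finset (Fin p) // 2 ≤ S.card ∧ S.card < p}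

/-- The divisor `δ_S`. -/
def delta (S : Bd p) (R : Finset (Fin p)) : ℝ := if R = S.1 then 1 else 0

/-- The class in `N_1` of the curve with the numbers `m`, `d` in the factor given by the `B i`: its
degrees on the boundary divisors. -/
def curveClass (B : Fin q → Finset (Fin p)) (m : Finset (Fin q) → ℕ) (d : ℕ) : Bd p → ℝ :=
  fun S => degree (delta S) B m d

/-- The types of F-curves: partitions `A, B, C, (the rest, with ∞)` of the marks. -/
abbrev FType (p : ℕ) : Type :=
  {t : Finset (Fin p) × Finset (Fin p) × Finset (Fin p) //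
    t.1.Nonempty ∧ t.2.1.Nonempty ∧ t.2.2.Nonempty ∧
      Disjoint t.1 t.2.1 ∧ Disjoint t.1 t.2.2 ∧ Disjoint t.2.1 t.2.2}

/-- The class in `N_1` of an F-curve. -/
def fClass (t : FType p) : Bd p → ℝ := fun S => fdegree (delta S) t.1.1 t.1.2.1 t.1.2.2

/-- The degree of the divisor `∑ c S • δ_S` on a class in `N_1`. -/
def deg (c : Finset (Fin p) → ℝ) (x : Bd p → ℝ) : ℝ := ∑ S : Bd p, c S.1 * x S

/-- The classes of the curves in the factors of the strata. -/
def Curves (p : ℕ) : Set (Bd p → ℝ) :=
  {x | ∃ (q : ℕ) (B : Fin q → Finset (Fin p)) (m : Finset (Fin q) → ℕ) (d : ℕ), 3 ≤ q ∧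
    IsStratum B ∧ IsCurve m d ∧ x = curveClass B m d}

/-- The closed cone spanned by the classes of curves. -/
def Mori (p : ℕ) : Set (Bd p → ℝ) :=
  closure {x | ∃ (k : ℕ) (r : Fin k → ℝ) (y : Fin k → Bd p → ℝ), (∀ i, 0 ≤ r i) ∧
    (∀ i, y i ∈ Curves p) ∧ x = ∑ i, r i • y i}

/-- The convex hull of the classes of the F-curves. -/
def P (p : ℕ) : Set (Bd p → ℝ) := convexHull ℝ (Set.range fClass)

lemma isDivisor_delta (S : Bd p) : IsDivisor (delta S) := by
  constructor
  · intro R hR
    unfold delta
    rw [if_neg]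
    rintro rfl
    have := S.2.1
    omega
  · unfold delta
    rw [if_neg]
    intro h
    have h1 := S.2.2
    rw [← h, card_univ, Fintype.card_fin] at h1
    omega

lemma expand {c : Finset (Fin p) → ℝ} (hc : IsDivisor c) (R : Finset (Fin p)) :
    c R = ∑ S : Bd p, c S.1 * delta S R := by
  by_cases hR : 2 ≤ R.card ∧ R.card < p
  · rw [sum_eq_single (⟨R, hR⟩ : Bd p)]
    · unfold delta
      simp
    · intro S _ hS
      unfold delta
      rw [if_neg, mul_zero]
      rintro rfl
      exact hS rfl
    · intro h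
      exact absurd (mem_univ _) h
  · have h0 : c R = 0 := by
      by_cases h1 : R.card ≤ 1
      · exact hc.1 R h1
      · have h2 : R = univ := by
          apply (card_eq_iff_eq_univ R).1
          have := card_le_univ R
          rw [Fintype.card_fin] at this ⊢
          omega
        rw [h2]
        exact hc.2
    rw [h0]
    symm
    refine sum_eq_zero fun S _ => ?_
    unfold delta
    rw [if_neg, mul_zero]
    rintro rfl
    exact hR S.2

/-- The degree on a curve as a linear map. -/
noncomputable def degL (B : Fin q → Finset (Fin p)) (m : Finset (Fin q) → ℕ) (d : ℕ) :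
    (Finset (Fin p) → ℝ) →ₗ[ℝ] ℝ where
  toFun c := degree c B m d
  map_add' u v := by
    unfold degree
    simp only [Pi.add_apply, add_mul, sum_add_distrib]
    ring
  map_smul' a u := by
    unfold degree
    simp only [Pi.smul_apply, smul_eq_mul, RingHom.id_apply, mul_assoc, mul_sub, mul_sum]

/-- The degree on an F-curve as a linear map. -/
noncomputable def fdegL (A B C : Finset (Fin p)) : (Finset (Fin p) → ℝ) →ₗ[ℝ] ℝ where
  toFun c := fdegree c A B C
  map_add' u v := by
    unfold fdegree
    simp only [Pi.add_apply]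
    ring
  map_smul' a u := by
    unfold fdegree
    simp only [Pi.smul_apply, smul_eq_mul, RingHom.id_apply]
    ring

lemma expand_fun {c : Finset (Fin p) → ℝ} (hc : IsDivisor c) :
    c = ∑ S : Bd p, c S.1 • delta S := by
  funext R
  rw [expand hc R, Finset.sum_apply]
  rfl

lemma deg_curve {c : Finset (Fin p) → ℝ} (hc : IsDivisor c) (B : Fin q → Finset (Fin p))
    (m : Finset (Fin q) → ℕ) (d : ℕ) : deg c (curveClass B m d) = degree c B m d := by
  have h : degL B m d c = degree c B m d := rfl
  rw [← h]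
  conv_rhs => rw [expand_fun hc]
  rw [map_sum]
  refine sum_congr rfl fun S _ => ?_
  rw [map_smul]
  rfl

lemma deg_f {c : Finset (Fin p) → ℝ} (hc : IsDivisor c) (t : FType p) :
    deg c (fClass t) = fdegree c t.1.1 t.1.2.1 t.1.2.2 := by
  have h : fdegL t.1.1 t.1.2.1 t.1.2.2 c = fdegree c t.1.1 t.1.2.1 t.1.2.2 := rfl
  rw [← h]
  conv_rhs => rw [expand_fun hc]
  rw [map_sum]
  refine sum_congr rfl fun S _ => ?_
  rw [map_smul]
  rfl

lemma deg_sum (c : Finset (Fin p) → ℝ) {k : ℕ} (r : Fin k → ℝ) (y : Fin k → Bd p → ℝ) :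
    deg c (∑ i, r i • y i) = ∑ i, r i * deg c (y i) := by
  unfold deg
  simp only [Finset.sum_apply, Pi.smul_apply, smul_eq_mul, mul_sum]
  rw [sum_comm]
  refine sum_congr rfl fun i _ => sum_congr rfl fun S _ => ?_
  ring

lemma deg_cont (c : Finset (Fin p) → ℝ) : Continuous (deg c : (Bd p → ℝ) → ℝ) := by
  unfold deg
  fun_prop

/-- A closed homogeneous inequality passes from the curves to the closed cone. -/
lemma ineq (c : Finset (Fin p) → ℝ) (h : ∀ y ∈ Curves p, 0 ≤ deg c y) :
    ∀ x ∈ Mori p, 0 ≤ deg c x := by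
  intro x hx
  have hcl : IsClosed {x : Bd p → ℝ | 0 ≤ deg c x} :=
    isClosed_le continuous_const (deg_cont c)
  refine closure_minimal ?_ hcl hx
  rintro _ ⟨k, r, y, hr, hy, rfl⟩
  show 0 ≤ deg c (∑ i, r i • y i)
  rw [deg_sum]
  exact sum_nonneg fun i _ => mul_nonneg (hr i) (h _ (hy i))

lemma deg_sub (c u : Finset (Fin p) → ℝ) (x : Bd p → ℝ) (e : ℝ) :
    deg (fun S => c S - e * u S) x = deg c x - e * deg u x := by
  unfold deg
  rw [mul_sum, ← sum_sub_distrib]
  refine sum_congr rfl fun S _ => ?_
  ring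

/-- The approximate F-conjecture on the closed cone. -/
lemma primal (hp : 3 ≤ p) {c : Finset (Fin p) → ℝ} (hc : IsDivisor c) {a b : ℝ}
    (h : ∀ t : FType p, a ≤ deg c (fClass t) ∧ deg c (fClass t) ≤ b) {x : Bd p → ℝ}
    (hx : x ∈ Mori p) :
    (a - kappa (p + 1) * (b - a)) * deg logCanonical x ≤ deg c x := by
  have hl : IsDivisor (logCanonical (p := p)) := logCanonical_divisor (by omega)
  have h1 := (Pool.Agent.Results.MP_23e236_ag.UniformPinching.result p c hc a b
    (fun A B C hA hB hC h1 h2 h3 => by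
      have := h ⟨(A, B, C), hA, hB, hC, h1, h2, h3⟩
      rw [deg_f hc] at this
      exact this)).2.1
  have h2 := ineq (fun S => c S - (a - kappa (p + 1) * (b - a)) * logCanonical S) (by
    rintro y ⟨q, B, m, d, hq, hB, hm, rfl⟩
    rw [deg_sub, deg_curve hc, deg_curve hl]
    have := h1 q B m d hq hB hm
    linarith) x hx
  rw [deg_sub] at h2
  linarith

lemma deg_nonneg (hp : 3 ≤ p) {x : Bd p → ℝ} (hx : x ∈ Mori p) : 0 ≤ deg logCanonical x := by
  have hl : IsDivisor (logCanonical (p := p)) := logCanonical_divisor (by omega)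
  refine ineq _ ?_ x hx
  rintro y ⟨q, B, m, d, hq, hB, hm, rfl⟩
  rw [deg_curve hl]
  have h1 := (Pool.Agent.Results.MP_23e236_ag.UniformPinching.result p logCanonical hl 1 1
    (fun A B C hA hB hC h1 h2 h3 => by
      rw [logCanonical_fdegree hA hB hC h1 h2 h3]
      exact ⟨le_rfl, le_rfl⟩)).2.2.2.2.2
  exact (h1 q B m d hq hB hm).1

open Classical in
/-- Extension by zero. -/
noncomputable def ext (u : Bd p → ℝ) (S : Finset (Fin p)) : ℝ :=
  if h : 2 ≤ S.card ∧ S.card < p then u ⟨S, h⟩ else 0

lemma ext_div (u : Bd p → ℝ) : IsDivisor (ext u) := by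
  refine ⟨fun S hS => ?_, ?_⟩
  · unfold ext
    rw [dif_neg (by omega)]
  · unfold ext
    rw [dif_neg]
    rw [card_univ, Fintype.card_fin]
    omega

lemma deg_ext (u x : Bd p → ℝ) : deg (ext u) x = ∑ S : Bd p, u S * x S := by
  unfold deg
  refine sum_congr rfl fun S _ => ?_
  unfold ext
  rw [dif_pos S.2]

/-- The pairing with a class as a linear map. -/
noncomputable def pair (x : Bd p → ℝ) : (Bd p → ℝ) →ₗ[ℝ] ℝ where
  toFun u := ∑ S : Bd p, u S * x S
  map_add' u v := by
    simp only [Pi.add_apply, add_mul, sum_add_distrib]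
  map_smul' a u := by
    simp only [Pi.smul_apply, smul_eq_mul, RingHom.id_apply, mul_sum, mul_assoc]

lemma pair_single (x : Bd p → ℝ) (S : Bd p) : pair x (Pi.single S 1) = x S := by
  show ∑ T : Bd p, (Pi.single S 1 : Bd p → ℝ) T * x T = x S
  rw [sum_eq_single S]
  · simp
  · intro T _ hT
    rw [Pi.single_eq_of_ne hT, zero_mul]
  · intro h
    exact absurd (mem_univ _) h

/-- The dual form, with weights. -/
lemma dual (hp : 3 ≤ p) {x : Bd p → ℝ} (hx : x ∈ Mori p) :
    ∃ w v : FType p → ℝ, (∀ t, 0 ≤ w t) ∧ (∀ t, 0 ≤ v t) ∧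
      ∑ t, w t = (1 + kappa (p + 1)) * deg logCanonical x ∧
      ∑ t, v t = kappa (p + 1) * deg logCanonical x ∧
      ∀ S, x S = ∑ t, w t * fClass t S - ∑ t, v t * fClass t S := by
  classical
  let U : Type := (Bd p → ℝ) × ℝ × ℝ
  let prU : U →ₗ[ℝ] (Bd p → ℝ) := LinearMap.fst ℝ _ _
  let prX : U →ₗ[ℝ] ℝ := (LinearMap.fst ℝ ℝ ℝ).comp (LinearMap.snd ℝ _ _)
  let prY : U →ₗ[ℝ] ℝ := (LinearMap.snd ℝ ℝ ℝ).comp (LinearMap.snd ℝ _ _)
  let l : FType p ⊕ FType p → (U →ₗ[ℝ] ℝ) := fun s =>
    Sum.elim (fun t => prX - (pair (fClass t)).comp prU) (fun t => (pair (fClass t)).comp prU - prY) s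
  let K : ℝ := kappa (p + 1)
  let D : ℝ := deg logCanonical x
  let f : U →ₗ[ℝ] ℝ := ((1 + K) * D) • prX - (K * D) • prY - (pair x).comp prU
  let e := Fintype.equivFin (FType p ⊕ FType p)
  obtain ⟨W, hW, hf⟩ := H575R2.farkas_lin (Fintype.card (FType p ⊕ FType p))
    (fun i => l (e.symm i)) f (by
      rintro ⟨u, a, b⟩ hu
      have h1 : ∀ t : FType p, a ≤ deg (ext u) (fClass t) ∧ deg (ext u) (fClass t) ≤ b := by
        intro t
        have k1 := hu (e (Sum.inl t))
        have k2 := hu (e (Sum.inr t))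
        simp only [Equiv.symm_apply_apply] at k1 k2
        have k3 : l (Sum.inl t) (u, a, b) = a - ∑ S : Bd p, u S * fClass t S := rfl
        have k4 : l (Sum.inr t) (u, a, b) = ∑ S : Bd p, u S * fClass t S - b := rfl
        rw [k3] at k1
        rw [k4] at k2
        rw [deg_ext]
        constructor <;> linarith
      have h2 := primal hp (ext_div u) h1 hx
      rw [deg_ext] at h2
      have h3 : f (u, a, b) = ((1 + K) * D) * a - (K * D) * b - ∑ S : Bd p, u S * x S := rfl
      rw [h3]
      have h4 : ((1 + K) * D) * a - (K * D) * b = (a - kappa (p + 1) * (b - a)) *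
          deg logCanonical x := by
        show ((1 + kappa (p + 1)) * deg logCanonical x) * a -
          (kappa (p + 1) * deg logCanonical x) * b = _
        ring
      rw [h4]
      linarith)
  have hs : ∀ z : U, f z = ∑ t, W (e (Sum.inl t)) * l (Sum.inl t) z +
      ∑ t, W (e (Sum.inr t)) * l (Sum.inr t) z := by
    intro z
    rw [hf z, ← Equiv.sum_comp e, Fintype.sum_sum_type]
    simp only [Equiv.symm_apply_apply]
  refine ⟨fun t => W (e (Sum.inl t)), fun t => W (e (Sum.inr t)), fun t => hW _, fun t => hW _,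
    ?_, ?_, fun S => ?_⟩
  · have h1 := hs (0, 1, 0)
    have h2 : f (0, 1, 0) = ((1 + K) * D) * 1 - (K * D) * 0 - ∑ S : Bd p, 0 * x S := rfl
    have h3 : ∀ t, l (Sum.inl t) ((0, 1, 0) : U) = 1 - ∑ S : Bd p, 0 * fClass t S := fun t => rfl
    have h4 : ∀ t, l (Sum.inr t) ((0, 1, 0) : U) = ∑ S : Bd p, 0 * fClass t S - 0 := fun t => rfl
    simp only [h2, h3, h4, zero_mul, sum_const_zero, sub_zero, mul_one, mul_zero, add_zero] at h1
    exact h1.symm
  · have h1 := hs (0, 0, 1)
    have h2 : f (0, 0, 1) = ((1 + K) * D) * 0 - (K * D) * 1 - ∑ S : Bd p, 0 * x S := rfl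
    have h3 : ∀ t, l (Sum.inl t) ((0, 0, 1) : U) = 0 - ∑ S : Bd p, 0 * fClass t S := fun t => rfl
    have h4 : ∀ t, l (Sum.inr t) ((0, 0, 1) : U) = ∑ S : Bd p, 0 * fClass t S - 1 := fun t => rfl
    simp only [h2, h3, h4, zero_mul, sum_const_zero, sub_zero, mul_one, mul_zero, zero_sub,
      zero_add, mul_neg, sum_neg_distrib, neg_inj] at h1
    exact h1.symm
  · have h1 := hs (Pi.single S 1, 0, 0)
    have h2 : f (Pi.single S 1, 0, 0) = ((1 + K) * D) * 0 - (K * D) * 0 -
      pair x (Pi.single S 1) := rfl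
    have h3 : ∀ t, l (Sum.inl t) ((Pi.single S 1, 0, 0) : U) =
      0 - pair (fClass t) (Pi.single S 1) := fun t => rfl
    have h4 : ∀ t, l (Sum.inr t) ((Pi.single S 1, 0, 0) : U) =
      pair (fClass t) (Pi.single S 1) - 0 := fun t => rfl
    simp only [h2, h3, h4, pair_single, mul_zero, sub_zero, zero_sub, mul_neg,
      sum_neg_distrib] at h1
    linarith

/-- A weighted sum of F-curves with positive total weight. -/
lemma hull (w : FType p → ℝ) (hw : ∀ t, 0 ≤ w t) (h : 0 < ∑ t, w t) :
    ∃ y ∈ P p, (fun S => ∑ t, w t * fClass t S) = (∑ t, w t) • y := by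
  refine ⟨∑ t, ((∑ t, w t)⁻¹ * w t) • fClass t, ?_, ?_⟩
  · refine (convex_convexHull ℝ _).sum_mem (fun t _ => ?_) ?_ fun t _ =>
      subset_convexHull ℝ _ ⟨t, rfl⟩
    · exact mul_nonneg (inv_nonneg.2 h.le) (hw t)
    · rw [← mul_sum]
      exact inv_mul_cancel₀ h.ne'
  · funext S
    simp only [Pi.smul_apply, Finset.sum_apply, smul_eq_mul, mul_sum]
    refine sum_congr rfl fun t _ => ?_
    field_simp

lemma kappa_pos (n : ℕ) (hn : 1 ≤ n) : 0 < kappa n := by
  unfold kappa
  refine lt_min ?_ (by norm_num)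
  have : (0 : ℝ) < n := by exact_mod_cast hn
  positivity

/-- The numbers of the curve `M̄_{0,4}`. -/
def one (S : Finset (Fin 3)) : ℕ := if S.card = 2 then 1 else 0

lemma one_curve : IsCurve one 1 := by
  refine ⟨fun S hS => ?_, ?_, ?_⟩
  · unfold one
    rw [if_neg (by omega)]
  · decide
  · decide

lemma one_degree (c : Finset (Fin p) → ℝ) (A B C : Finset (Fin p)) :
    degree c ![A, B, C] one 1 = fdegree c A B C := by
  have h1 : (univ.filter fun S : Finset (Fin 3) => 2 ≤ S.card ∧ S.card < 3) =
      {{0, 1}, {0, 2}, {1, 2}} := by decide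
  have h2 : ∀ i : Fin 3, (∑ S ∈ univ.filter (fun S : Finset (Fin 3) => i ∈ S), one S) = 2 := by
    decide
  have h3 : ∀ i : Fin 3, (∑ S ∈ univ.filter (fun S : Finset (Fin 3) => i ∈ S), (one S : ℝ)) = 2 := by
    intro i
    have := h2 i
    exact_mod_cast this
  have h4 : one {0, 1} = 1 := by decide
  have h5 : one {0, 2} = 1 := by decide
  have h6 : one {1, 2} = 1 := by decide
  have h7 : (univ : Finset (Fin 3)) = {0, 1, 2} := by decide
  unfold degree fdegree
  rw [h1]
  simp only [h3]
  rw [sum_insert (by decide), sum_insert (by decide), sum_singleton, h4, h5, h6,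
    Fin.sum_univ_three, h7]
  simp only [biUnion_insert, singleton_biUnion, Matrix.cons_val_zero, Matrix.cons_val_one,
    Matrix.cons_val, Nat.cast_one, mul_one, union_assoc]
  ring

/-- Let `n = p + 1 ≥ 4` and `κ = min (3 √n) 51`.
1. The classes of the F-curves are in the closed cone of curves, and they have degree one on
   `K + Δ`.
2. Every class in the closed cone of curves has nonnegative degree `D` on `K + Δ`, and it is
   `D` times `(1 + κ) y - κ z`, where `y` and `z` are in the convex hull of the classes of the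
   F-curves.
3. In particular it is an effective sum of F-curves after adding `D κ` times a convex combination
   of F-curves, and it is zero if `D = 0`. -/
theorem result (p : ℕ) (hp : 3 ≤ p) :
    (∀ t : FType p, fClass t ∈ Mori p ∧ deg logCanonical (fClass t) = 1) ∧
    (∀ x ∈ Mori p, 0 ≤ deg logCanonical x ∧ ∃ y ∈ P p, ∃ z ∈ P p,
      x = deg logCanonical x • ((1 + kappa (p + 1)) • y - kappa (p + 1) • z)) ∧
    (∀ x ∈ Mori p, (∃ z ∈ P p, ∃ w : FType p → ℝ, (∀ t, 0 ≤ w t) ∧
      x + (deg logCanonical x * kappa (p + 1)) • z = ∑ t, w t • fClass t) ∧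
      (deg logCanonical x = 0 → x = 0)) := by
  have hl : IsDivisor (logCanonical (p := p)) := logCanonical_divisor (by omega)
  have hk : 0 < kappa (p + 1) := kappa_pos _ (by omega)
  have hne : Nonempty (FType p) := by
    have hd : ∀ i j : ℕ, ∀ (hi : i < p) (hj : j < p), i ≠ j →
        Disjoint ({⟨i, hi⟩} : Finset (Fin p)) {⟨j, hj⟩} := by
      intro i j hi hj hij
      rw [disjoint_singleton, Ne, Fin.mk.injEq]
      exact hij
    exact ⟨⟨({⟨0, by omega⟩}, {⟨1, by omega⟩}, {⟨2, by omega⟩}), singleton_nonempty _,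
      singleton_nonempty _, singleton_nonempty _, hd _ _ _ _ (by omega), hd _ _ _ _ (by omega),
      hd _ _ _ _ (by omega)⟩⟩
  have key : ∀ x ∈ Mori p, 0 ≤ deg logCanonical x ∧ ∃ y ∈ P p, ∃ z ∈ P p,
      x = deg logCanonical x • ((1 + kappa (p + 1)) • y - kappa (p + 1) • z) := by
    intro x hx
    have h0 := deg_nonneg hp hx
    refine ⟨h0, ?_⟩
    obtain ⟨w, v, hw, hv, sw, sv, h⟩ := dual hp hx
    rcases h0.eq_or_lt with h0 | h0
    · obtain ⟨t⟩ := hne
      refine ⟨fClass t, subset_convexHull ℝ _ ⟨t, rfl⟩, fClass t,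
        subset_convexHull ℝ _ ⟨t, rfl⟩, ?_⟩
      rw [← h0, mul_zero] at sw sv
      rw [← h0, zero_smul]
      have hw0 : ∀ t, w t = 0 := fun t =>
        (sum_eq_zero_iff_of_nonneg fun t _ => hw t).1 sw t (mem_univ t)
      have hv0 : ∀ t, v t = 0 := fun t =>
        (sum_eq_zero_iff_of_nonneg fun t _ => hv t).1 sv t (mem_univ t)
      funext S
      rw [h S]
      simp only [hw0, hv0, zero_mul, sum_const_zero, sub_zero, Pi.zero_apply]
    · obtain ⟨y, hy, ey⟩ := hull w hw (by rw [sw]; positivity)
      obtain ⟨z, hz, ez⟩ := hull v hv (by rw [sv]; positivity)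
      refine ⟨y, hy, z, hz, ?_⟩
      funext S
      rw [h S]
      have k1 := congrFun ey S
      have k2 := congrFun ez S
      simp only [Pi.smul_apply, smul_eq_mul, Pi.sub_apply] at k1 k2 ⊢
      rw [k1, k2, sw, sv]
      ring
  refine ⟨fun t => ⟨?_, ?_⟩, key, fun x hx => ⟨?_, fun h => ?_⟩⟩
  · refine subset_closure ⟨1, fun _ => 1, fun _ => fClass t, fun _ => zero_le_one, fun _ => ?_, ?_⟩
    · refine ⟨3, ![t.1.1, t.1.2.1, t.1.2.2], one, 1, le_rfl, ⟨?_, ?_⟩, one_curve, ?_⟩
      · intro i
        fin_cases i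
        · exact t.2.1
        · exact t.2.2.1
        · exact t.2.2.2.1
      · intro i j hij
        have h1 := t.2.2.2.2.1
        have h2 := t.2.2.2.2.2.1
        have h3 := t.2.2.2.2.2.2
        fin_cases i <;> fin_cases j
        · exact absurd rfl hij
        · exact h1
        · exact h2
        · exact h1.symm
        · exact absurd rfl hij
        · exact h3
        · exact h2.symm
        · exact h3.symm
        · exact absurd rfl hij
      · funext S
        show fdegree (delta S) t.1.1 t.1.2.1 t.1.2.2 = degree (delta S) _ one 1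
        rw [one_degree]
    · simp
  · rw [deg_f hl]
    exact logCanonical_fdegree t.2.1 t.2.2.1 t.2.2.2.1 t.2.2.2.2.1 t.2.2.2.2.2.1 t.2.2.2.2.2.2
  · obtain ⟨w, v, hw, hv, sw, sv, h⟩ := dual hp hx
    obtain ⟨h0, _⟩ := key x hx
    rcases h0.eq_or_lt with h0 | h0
    · obtain ⟨t⟩ := hne
      refine ⟨fClass t, subset_convexHull ℝ _ ⟨t, rfl⟩, fun _ => 0, fun _ => le_rfl, ?_⟩
      obtain ⟨_, y, _, z, _, e⟩ := key x hx
      rw [← h0, zero_smul] at e
      rw [e]
      have : deg logCanonical (0 : Bd p → ℝ) = 0 := by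
        unfold deg
        simp
      rw [this]
      simp
    · obtain ⟨z, hz, ez⟩ := hull v hv (by rw [sv]; positivity)
      refine ⟨z, hz, w, hw, ?_⟩
      funext S
      have k2 := congrFun ez S
      have k3 := h S
      simp only [Pi.smul_apply, smul_eq_mul, Pi.add_apply, Finset.sum_apply] at k2 ⊢
      rw [sv] at k2
      rw [k3, k2]
      ring
  · obtain ⟨_, y, _, z, _, e⟩ := key x hx
    rw [e, h, zero_smul]

end Pool.Agent.Results.MP_159100_ag.UniformFCone
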